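import Pool.Agent.Lib.MP_6e2ba5_an.Final

/-!
# Fractional back-scattering determines the convex hull of the support of a real potential

Dimension three, `1/2 < s < 2`, `s ≠ 1` (for `3/4 < s < 3/2` this is the range of the problem).
`V₁, V₂` are real bounded measurable potentials with compact support.

There is `K` such that for all frequency bands `(a, b)` with `a ≥ K`:

* if for one direction `θ` the back-scattering amplitudes `u_j^∞(k, -θ, θ)` agree for `a < k < b`,
  then, for every `c`, `V₁ = 0` a.e. on the half-space `{-θ·x > c}` iff `V₂ = 0` a.e. there;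
* if this holds for all directions, the essential supports of `V₁` and `V₂` have the same closed
  convex hull.

Proof: continue `u_j^∞(k, -θ, θ)` to `k = iτ`. There the incident wave `p = exp(-τ θ·x)` is real and
`z = k^(2s)` is not real, and `Im u_j^∞ = Im z ‖v_j‖²` with `v_j` the scattered field, an `L²`
function. So `‖v₁‖ = ‖v₂‖`; the right side is at most `C exp(cτ)` if `V₂ = 0` on `{-θ·x > c}`, and
testing the equation of `v₁` with `g exp(τ θ·x)`, `g` supported in `{-θ·x ≥ a'}`, `a' > c`, gives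
`∫ V₁ g = 0`.
-/

set_option autoImplicit false

open MeasureTheory Filter Topology Set
open scoped InnerProductSpace

noncomputable section

namespace Pool.Agent.Results.MP_6e2ba5_an.ConvexHull

open FracScat

theorem result {s : ℝ} (h0 : 1 / 2 < s) (h2 : s < 2) (h1 : s ≠ 1) {V₁ V₂ : E3 → ℝ}
    (hV₁ : IsPotential V₁) (hV₂ : IsPotential V₂) :
    ∃ K : ℝ, 0 < K ∧ ∀ a b : ℝ, K ≤ a → a < b →
      (∀ θ : E3, ‖θ‖ = 1 → (∀ k ∈ Ioo a b, SameBackScattering s k V₁ V₂ θ) →
        ∀ c : ℝ, (∀ᵐ x ∂(volume : Measure E3), c < -⟪θ, x⟫_ℝ → V₁ x = 0) ↔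
          (∀ᵐ x ∂(volume : Measure E3), c < -⟪θ, x⟫_ℝ → V₂ x = 0)) ∧
      ((∀ θ : E3, ‖θ‖ = 1 → ∀ k ∈ Ioo a b, SameBackScattering s k V₁ V₂ θ) →
        closure (convexHull ℝ (essSupp V₁)) = closure (convexHull ℝ (essSupp V₂))) :=
  final_hull h0 h2 h1 hV₁ hV₂

end Pool.Agent.Results.MP_6e2ba5_an.ConvexHull

end
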