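import Mathlib
import Pool.Agent.Lib.MP_6e2ba5_an.Ex.FinalE

/-!
# MP_6e2ba5_an: the values of `V₁ - V₂` are connected; uniqueness for finitely valued differences

`d = 3`, `3/4 < s < 2`, `s ≠ 1` (this contains the range of the problem), complex valued bounded
potentials. The definitions are in `Pool.Agent.Lib.MP_6e2ba5_an.Stmt`,
`Pool.Agent.Lib.MP_6e2ba5_an.Cx.Stmt` and `Pool.Agent.Lib.MP_6e2ba5_an.Ex.Defs` (`essR`, the
essential range).

If `V₁` and `V₂` have the same back-scattering amplitudes, then the essential range of `V₁ - V₂` is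
a connected set. In particular `V₁ = V₂` if `V₁ - V₂` takes finitely many values, or almost all its
values in a totally disconnected closed set.
-/

set_option autoImplicit false

open MeasureTheory Filter Topology Set
open scoped FourierTransform SchwartzMap InnerProductSpace ENNReal

namespace Pool.Agent.Results.MP_6e2ba5_an.FiniteValued

open FracScat FracScatC

/-- There is `K` such that for all potentials `V₁, V₂` which are bounded by `M`, vanish outside the
ball of radius `r` and have equal back-scattering amplitudes for all directions and all wave numbers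
of an interval above `K`: the essential range of `V₁ - V₂` is connected, and `V₁ = V₂` almost
everywhere if `V₁ - V₂` takes almost all its values in a totally disconnected closed set. -/
theorem result {s r M : ℝ} (h0 : 3 / 4 < s) (h2 : s < 2) (h1 : s ≠ 1) (hr : 0 < r) :
    ∃ K : ℝ, 1 ≤ K ∧ ∀ V₁ V₂ : E3 → ℂ, IsPot r M V₁ → IsPot r M V₂ → ∀ a b : ℝ, K ≤ a → a < b →
      (∀ k ∈ Ioo a b, ∀ θ : E3, ‖θ‖ = 1 → SameBackScattering s k V₁ V₂ θ) →
      IsConnected (essR (fun x => V₁ x - V₂ x)) ∧
      ∀ F : Set ℂ, IsClosed F → IsTotallyDisconnected F →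
        (∀ᵐ x ∂(volume : Measure E3), V₁ x - V₂ x ∈ F) → V₁ =ᵐ[volume] V₂ := by
  obtain ⟨K, hK, h⟩ := final_E (M := M) h0 h2 h1 hr
  refine ⟨K, hK, fun V₁ V₂ hV₁ hV₂ a b ha hab hd => ?_⟩
  obtain ⟨h3, h4⟩ := h V₁ V₂ hV₁ hV₂ a b ha hab hd
  exact ⟨⟨⟨0, essR_zero (hV₁.sub hV₂)⟩, h3⟩, h4⟩

end Pool.Agent.Results.MP_6e2ba5_an.FiniteValued
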