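import Pool.Agent.Lib.MP_6e2ba5_an.Dx.FinZ

/-!
# Fractional back-scattering: global uniqueness and stability for generic potentials

Dimension three, `3/4 < s < 2`, `s ≠ 1`. All potentials are real, bounded, measurable, with compact
support. `X(R', R)` (`InShell`) is the closure in `L^∞(ℝ³; ℝ)` of the functions which vanish a.e. outside
of a shell `R' ≤ |x| ≤ ρ` with `ρ < R` (for `R' = 0`: a ball).

Theorem. For every potential `V₀` vanishing for `|x| > R'` the functions `f` in `X(R', R)` such
that the back-scattering data of `V₀ + f` determine it among all potentials (`Determined`) form a
residual set, and there are such `f` with values arbitrarily close to zero.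
Stable version, for `V₀ = 0`. For every bound `M` the `f` in `X(R', R)` with the following property
`LocStable s R M f` form an open dense set: there are `δ, K, C` such that for all `V` with
`|V - f| ≤ δ` a.e. and all `U` bounded by `M`, both vanishing for `|x| > R`, equality of the
back-scattering amplitudes for all directions and all wave numbers of one band above `K` gives
`V = U` a.e.; and for `s > 1` the `L²` norm of `V - U` is at most `C` times the `L²` norm of the
difference of the back-scattering amplitudes over `|ξ| ≥ K` (`k = 2π|ξ|`, `θ = ξ/|ξ|`).
`U` is not assumed to be close to `V`, and nothing is assumed to be small or smooth. The potential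
zero has this property: small potentials are determined among all potentials bounded by `M`.

Proof. The pairs with the same data are a compact set over bounded sets of potentials, as the
symbol of the resolvent (on the real axis for `s > 1`, on the negative axis for `s < 1`) is in `L²`,
and the linearised problem has a finite dimensional kernel. Let `V₁` have a sharp tip `y₀` and
`V₂ ≠ V₁` the same data. At `k = iτ` the data are `∫ e V u`, `e = exp(η·x)`, for all `η ∈ ℂ³` with
`η·η = τ²` (analytic continuation), and for fixed `τ` and `η → ∞` these exponentials concentrate
at the tip. If a small cube `ε` at `x`, beyond the tip, could be compensated by a change of `V₂`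
then the difference `D_τ(x, y₀)` of the perturbed resolvent kernels of `V₁` and `V₂` would vanish for
all `τ`; this is excluded for most `x` by unique continuation and by the high energy asymptotics.
So in a family of perturbations with more than `2 dim` parameters most potentials have no solution
near `V₂`; compactness and the Baire category theorem give the result.
-/

set_option autoImplicit false

open MeasureTheory Filter Topology Set
open scoped InnerProductSpace ENNReal

noncomputable section

namespace Pool.Agent.Results.MP_6e2ba5_an.GenericGlobal

open FracScat

theorem result {s : ℝ} (h0 : 3 / 4 < s) (h2 : s < 2) (h1 : s ≠ 1) (R : ℝ) :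
    ∃ K : ℝ → ℝ → ℝ, ∀ R' : ℝ, 0 ≤ R' → R' < R →
      (∀ V₀ : E3 → ℝ, IsPotential V₀ → (∀ x, R' < ‖x‖ → V₀ x = 0) →
        Residual R' R (fun f => Determined s K (fun x => V₀ x + f x)) ∧
        ∀ ε : ℝ, 0 < ε → ∃ U : E3 → ℝ, Measurable U ∧ (∀ x, |U x| ≤ ε) ∧
          (∀ x, U x ≠ 0 → R' ≤ ‖x‖ ∧ ‖x‖ < R) ∧ Determined s K (fun x => V₀ x + U x)) ∧
      ∀ M : ℝ, OpenDense R' R (LocStable s R M) ∧ LocStable s R M (fun _ => 0) :=
  generic_all h0 h2 h1 R

end Pool.Agent.Results.MP_6e2ba5_an.GenericGlobal

end
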