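import Pool.Agent.Lib.MP_6e2ba5_an.Rx.ExBody

/-!
# Fractional back-scattering: uniqueness from the local structure at one boundary point

Dimension three, `3/4 < s < 2`, `s ≠ 1`, real bounded compactly supported potentials `V₁`, `V₂` with
the same back-scattering amplitudes for all directions and all `k` in one frequency band.

First part. Let `H` be the closed convex hull of the essential support of `V₁`. Suppose that in one
ball `B` the difference `V₁ - V₂` coincides a.e. on `H ∩ B` with a real analytic function (for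
example with `0`), and that the exposed points of `H` in `B` near which `V₁` is bounded away from
zero on `H`, with a sign, are not contained in the zero set of a nonzero real analytic function on
`B`. Then `V₁ = V₂` almost everywhere, on the whole space.

Second part. For every `R` there is a compact convex `D`, with the ball of radius `R` in its
interior, such that for arbitrary real bounded `W₁`, `W₂` vanishing outside of this ball the
back-scattering data of `1_D + W₁` and `1_D + W₂` are different unless `W₁ = W₂` a.e.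

Proof: the hulls coincide. At `k = iτ` (analytic continuation of the data) the plane waves
`exp(-τθ·x)` concentrate at an exposed point `y` of `H` with normal `-θ`, and the second order term
of the Born series gives in the limit `∫ (V₁ - V₂)(x) |x-y|^(-6-4s) dx = 0`, since the free
resolvent kernel at `k = iτ` has the tail `c τ^(-4s) |x-y|^(-3-2s)`. The left side is a real
analytic function of `y` off the support of `V₁ - V₂`, up to a term of a local type, so it vanishes
in an open set, and the potentials of this kind have the unique continuation property.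
-/

set_option autoImplicit false

open MeasureTheory Filter Topology Set
open scoped InnerProductSpace ENNReal

noncomputable section

namespace Pool.Agent.Results.MP_6e2ba5_an.LocalStructure

open FracScat

/-- `V` is bounded away from zero, with one sign, at almost all points of `H` near `y`. -/
def OneSignNear (V : E3 → ℝ) (H : Set E3) (y : E3) : Prop :=
  ∃ c δ : ℝ, 0 < c ∧ 0 < δ ∧
    ((∀ᵐ x ∂(volume : Measure E3), x ∈ H → ‖x - y‖ < δ → c ≤ V x) ∨
      ∀ᵐ x ∂(volume : Measure E3), x ∈ H → ‖x - y‖ < δ → V x ≤ -c)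

/-- Back-scattering data for all directions and one band of large frequencies determine which of
`V₁`, `V₂` is present. -/
def Distinguished (s : ℝ) (V₁ V₂ : E3 → ℝ) : Prop :=
  ∃ K : ℝ, 0 < K ∧ ∀ a b : ℝ, K ≤ a → a < b →
    (∀ θ : E3, ‖θ‖ = 1 → ∀ k ∈ Ioo a b, SameBackScattering s k V₁ V₂ θ) → V₁ =ᵐ[volume] V₂

theorem result :
    (∀ s : ℝ, 3 / 4 < s → s < 2 → s ≠ 1 → ∀ V₁ V₂ : E3 → ℝ, IsPotential V₁ → IsPotential V₂ →
      ∀ (y₀ : E3) (ρ : ℝ) (p : E3 → ℝ), 0 < ρ → AnalyticOnNhd ℝ p (Metric.ball y₀ ρ) →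
      (∀ᵐ x ∂(volume : Measure E3), x ∈ closure (convexHull ℝ (essSupp V₁)) →
        x ∈ Metric.ball y₀ ρ → V₁ x - V₂ x = p x) →
      (∀ f : E3 → ℝ, AnalyticOnNhd ℝ f (Metric.ball y₀ ρ) →
        (∀ y ∈ (closure (convexHull ℝ (essSupp V₁))).exposedPoints ℝ, y ∈ Metric.ball y₀ ρ →
          OneSignNear V₁ (closure (convexHull ℝ (essSupp V₁))) y → f y = 0) →
        ∀ y ∈ Metric.ball y₀ ρ, f y = 0) →
      Distinguished s V₁ V₂) ∧
    (∀ R : ℝ, 0 < R → ∃ D : Set E3, IsCompact D ∧ Convex ℝ D ∧
      Metric.closedBall 0 R ⊆ interior D ∧ ∀ s : ℝ, 3 / 4 < s → s < 2 → s ≠ 1 →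
      ∀ W₁ W₂ : E3 → ℝ, Measurable W₁ → Measurable W₂ → (∃ M, ∀ x, |W₁ x| ≤ M) →
      (∃ M, ∀ x, |W₂ x| ≤ M) → (∀ x, R < ‖x‖ → W₁ x = 0) → (∀ x, R < ‖x‖ → W₂ x = 0) →
      ∃ K : ℝ, 0 < K ∧ ∀ a b : ℝ, K ≤ a → a < b →
        (∀ θ : E3, ‖θ‖ = 1 → ∀ k ∈ Ioo a b, SameBackScattering s k
          (fun x => D.indicator (fun _ => (1 : ℝ)) x + W₁ x)
          (fun x => D.indicator (fun _ => (1 : ℝ)) x + W₂ x) θ) → W₁ =ᵐ[volume] W₂) :=
  ⟨fun _ h0 h2 h1 _ _ hV₁ hV₂ _ _ _ hρ hp hl hE => final_R h0 h2 h1 hV₁ hV₂ hρ hp hl hE,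
    fun _ hR => reference hR⟩

end Pool.Agent.Results.MP_6e2ba5_an.LocalStructure

end
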